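import Pool.Agent.T4h89.KN.Final

/-!
# The Kneser graph K(9,3) among graphs with every edge in a triangle, and related classes

Let `G` be a graph with the adjacency spectrum of the Kneser graph `K(9,3)`. If `G` has one of the
following properties then `G` is isomorphic to `K(9,3)`:
(a) every edge is in a triangle;
(b) two common neighbours of two adjacent vertices are always adjacent (no induced diamond);
(c) the number of common neighbours is the same for all pairs of adjacent vertices (for instance if
the automorphism group is transitive on the edges, or if `G` is a class of an association scheme);
(d) two different vertices which are not adjacent never have 5, 6, 7, 8 or 9 common neighbours;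
(e) the numbers of common neighbours of the pairs of different vertices which are not adjacent take
at most two values.

Proof. The matrix `g = A² - 3A - 4I - 4J` is the Gram matrix of 84 vectors of norm 12 in a space of
dimension 8 which form a tight frame. Each of (a)-(e) gives that every edge is in exactly one
triangle (for (e) by the inequalities `Σ g³ ≥ 0` and `Σ g² F ≥ 0`, where `F` is a multiple of the
projection to the eigenspace of `-1`), and then the three vectors of a triangle have sum 0. This
leaves two possible local distributions of the inner products; the positivity of the Gegenbauer
polynomial of degree 3 excludes one of them. Hence two vertices which are not adjacent have 4 or 10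
common neighbours. A vanishing Krein parameter and a closure argument (if `P(u,v) = P(u,w) = 1`,
`P(v,w) = 0` then `v + w - u` is again one of the vectors) give nine vertices with the inner products
of nine 3-subsets, which generate the whole configuration.
-/

set_option autoImplicit false

namespace Pool.Agent.Results.MP_8ffa71_co.EveryEdgeInATriangle

open Pool.Agent.T4h89.KN Finset

/-- `kneser` is the graph on the 3-subsets of `Fin 9`, two of them adjacent when they are disjoint.
The hypothesis `hcosp`: `G` and `K(9,3)` have the same spectrum (characteristic polynomials of the
adjacency matrices). -/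
theorem result (V : Type) [Fintype V] [DecidableEq V] (G : SimpleGraph V) [DecidableRel G.Adj]
    (hcosp : (G.adjMatrix ℝ).charpoly = (kneser.adjMatrix ℝ).charpoly)
    (h : (∀ x y, G.Adj x y → ∃ z, G.Adj x z ∧ G.Adj y z) ∨
      (∀ x y z w, G.Adj x y → G.Adj x z → G.Adj y z → G.Adj x w → G.Adj y w → z ≠ w →
        G.Adj z w) ∨
      (∀ x y x' y', G.Adj x y → G.Adj x' y' →
        (univ.filter fun z => G.Adj x z ∧ G.Adj y z).card =
          (univ.filter fun z => G.Adj x' z ∧ G.Adj y' z).card) ∨
      (∀ x y, x ≠ y → ¬ G.Adj x y →
        (univ.filter fun z => G.Adj x z ∧ G.Adj y z).card ≤ 4 ∨
          10 ≤ (univ.filter fun z => G.Adj x z ∧ G.Adj y z).card) ∨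
      (∃ m₁ m₂ : ℕ, ∀ x y, x ≠ y → ¬ G.Adj x y →
        (univ.filter fun z => G.Adj x z ∧ G.Adj y z).card = m₁ ∨
          (univ.filter fun z => G.Adj x z ∧ G.Adj y z).card = m₂)) :
    Nonempty (G ≃g kneser) :=
  main2 V G hcosp h

end Pool.Agent.Results.MP_8ffa71_co.EveryEdgeInATriangle
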